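import Pool.Agent.Helper99.SI.StB

/-!
# Project SI, module B6: injectivity
-/

set_option autoImplicit false

namespace Pool.Agent.Helper84.SI

open Pool.Agent.Helper99.SI

theorem hB6 (h1 : StA2) (h2 : StA3) (h3 : StA7) : StB6 := by
  classical
  intro n L _ _ _ _ _ D M hM a J0 haM hsum
  obtain ⟨hLI, _⟩ := h2 n L D
  obtain ⟨n1, C0, hn1, _, hgrow⟩ := h3 n L D
  have hw1 : D.w [] = 1 := rfl
  have hgw : ∀ (l : ℤ) (μ : W n), D.g.p l (D.w μ) = if l = (μ.length : ℤ) then D.w μ else 0 := by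
    intro l μ
    have h := h1 n L D l μ []
    rw [hw1, star_one, mul_one] at h
    simpa using h
  have hfinL : ∀ k : ℕ, {ν : W n | ν.length < k}.Finite := fun k => List.finite_length_lt (Fin n) k
  -- finitely many words in each degree
  have hfinj : ∀ j : ℤ, (Function.support fun ν : W n => a ν • D.b.p j (D.w ν)).Finite := by
    intro j
    refine (hfinL ((n1 * j + C0).toNat + 1)).subset ?_
    intro ν hν
    have h4 : D.b.p j (D.w ν) ≠ 0 := by
      intro h
      apply hν
      show a ν • D.b.p j (D.w ν) = 0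
      rw [h, smul_zero]
    have h5 := hgrow ν j h4
    show ν.length < _
    omega
  obtain ⟨y, hy⟩ : ∃ y : L, y = ∑ j ∈ Finset.Ico 1 J0, ∑ᶠ ν : W n, a ν • D.b.p j (D.w ν) :=
    ⟨_, rfl⟩
  have hkey : ∀ g : ℕ, D.g.p (g : ℤ) y = 0 → ∀ ν : W n, ν.length = g → a ν = 0 := by
    intro g hg
    obtain ⟨k0, hk0⟩ := D.G2 ((g : ℤ) + 1)
    obtain ⟨k, hk⟩ : ∃ k, k = max k0 (g + 1) := ⟨_, rfl⟩
    have hkk0 : k0 ≤ k := by rw [hk]; exact le_max_left _ _
    have hkg : g < k := by rw [hk]; exact lt_of_lt_of_le (Nat.lt_succ_self g) (le_max_right _ _)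
    obtain ⟨Fk, hFk⟩ : ∃ Fk : Finset (W n), ∀ ν, ν ∈ Fk ↔ ν.length < k :=
      ⟨(hfinL k).toFinset, fun ν => by rw [Set.Finite.mem_toFinset]; rfl⟩
    -- the gauge component of the degree j sum
    have hcomp : ∀ j : ℤ, D.g.p (g : ℤ) (∑ᶠ ν : W n, a ν • D.b.p j (D.w ν)) =
        ∑ ν ∈ Fk, a ν • D.g.p (g : ℤ) (D.b.p j (D.w ν)) := by
      intro j
      rw [map_finsum _ (hfinj j)]
      have h6 : ∀ ν : W n, D.g.p (g : ℤ) (a ν • D.b.p j (D.w ν)) =
          a ν • D.g.p (g : ℤ) (D.b.p j (D.w ν)) := fun ν => map_smul _ _ _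
      rw [finsum_congr h6]
      apply finsum_eq_sum_of_support_subset
      intro ν hν
      rw [Finset.mem_coe, hFk]
      by_contra hlen
      apply hν
      show a ν • D.g.p (g : ℤ) (D.b.p j (D.w ν)) = 0
      have h9 : D.g.p (g : ℤ) (D.b.p j (D.w ν)) = 0 := hk0 ν (by omega) j (g : ℤ) (by omega)
      rw [h9, smul_zero]
    obtain ⟨J, hJ⟩ : ∃ J : Finset ℤ, J = (Fk.biUnion fun ν => (D.b.fin (D.w ν)).toFinset) ∪
      Finset.Ico 1 J0 := ⟨_, rfl⟩
    have hdec : ∀ ν ∈ Fk, D.w ν = ∑ j ∈ J, D.b.p j (D.w ν) := by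
      intro ν hν
      conv_lhs => rw [← D.b.sum (D.w ν)]
      apply finsum_eq_sum_of_support_subset
      intro j hj
      rw [Finset.mem_coe, hJ, Finset.mem_union, Finset.mem_biUnion]
      left
      exact ⟨ν, hν, by rw [Set.Finite.mem_toFinset]; exact hj⟩
    have hS : ∑ ν ∈ Fk, a ν • D.g.p (g : ℤ) (D.w ν) = D.g.p (g : ℤ) y := by
      calc ∑ ν ∈ Fk, a ν • D.g.p (g : ℤ) (D.w ν)
          = ∑ ν ∈ Fk, ∑ j ∈ J, a ν • D.g.p (g : ℤ) (D.b.p j (D.w ν)) := by
            apply Finset.sum_congr rfl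
            intro ν hν
            conv_lhs => rw [hdec ν hν]
            rw [map_sum, Finset.smul_sum]
        _ = ∑ j ∈ J, ∑ ν ∈ Fk, a ν • D.g.p (g : ℤ) (D.b.p j (D.w ν)) := Finset.sum_comm
        _ = ∑ j ∈ Finset.Ico 1 J0, ∑ ν ∈ Fk, a ν • D.g.p (g : ℤ) (D.b.p j (D.w ν)) := by
            symm
            apply Finset.sum_subset
            · rw [hJ]
              exact Finset.subset_union_right
            · intro j _ hj
              rw [Finset.mem_Ico, not_and_or] at hj
              rcases hj with hj | hj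
              · apply Finset.sum_eq_zero
                intro ν _
                by_cases hν : ν.length < M
                · rw [haM ν hν, zero_smul]
                · rw [hM ν (by omega) j (by omega), map_zero, smul_zero]
              · rw [← hcomp, hsum j (by omega), map_zero]
        _ = D.g.p (g : ℤ) y := by
            rw [hy, map_sum]
            apply Finset.sum_congr rfl
            intro j _
            rw [hcomp]
    rw [hg] at hS
    have hS2 : ∑ ν ∈ Fk, (if ν.length = g then a ν else 0) • D.w ν = 0 := by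
      rw [← hS]
      apply Finset.sum_congr rfl
      intro ν _
      rw [hgw]
      by_cases hν : ν.length = g
      · rw [if_pos hν, if_pos (by omega)]
      · rw [if_neg hν, if_neg (by omega), zero_smul, smul_zero]
    intro ν hν
    have h7 := linearIndependent_iff'.1 hLI Fk (fun ν => if ν.length = g then a ν else 0) hS2 ν
      ((hFk ν).2 (by omega))
    simpa [hν] using h7
  -- only finitely many gauge degrees in y
  obtain ⟨g0, hg0⟩ : ∃ g0 : ℕ, ∀ g : ℕ, g0 ≤ g → D.g.p (g : ℤ) y = 0 := by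
    obtain ⟨b, hb⟩ := (D.g.fin y).bddAbove
    refine ⟨b.toNat + 1, fun g hg => ?_⟩
    by_contra h
    have h8 : (g : ℤ) ≤ b := hb h
    omega
  exact ⟨g0, fun ν hν => hkey ν.length (hg0 _ hν) ν rfl⟩

end Pool.Agent.Helper84.SI
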