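import Pool.Agent.Helper99.SI.StK

/-!
# Project SI, module K11: traces of powers
-/

set_option autoImplicit false

namespace Pool.Agent.Helper84.SI

open Pool.Agent.Helper99.SI Filter Topology Polynomial

theorem card_roots_cp {n : ℕ} (A : Matrix (Fin n) (Fin n) ℂ) :
    Multiset.card A.charpoly.roots = n := by
  rw [IsAlgClosed.card_roots_eq_natDegree, Matrix.charpoly_natDegree_eq_dim, Fintype.card_fin]

theorem det_lin {n : ℕ} (A : Matrix (Fin n) (Fin n) ℂ) (a : ℂ) :
    (aeval A (X - C a)).det = (A.charpoly.roots.map (fun r => (X - C a).eval r)).prod := by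
  have h1 : aeval A (X - C a) = -(Matrix.scalar (Fin n) a - A) := by
    rw [map_sub, aeval_X, aeval_C, neg_sub]
    rfl
  rw [h1, Matrix.det_neg, ← Matrix.eval_charpoly,
    (IsAlgClosed.splits A.charpoly).eval_eq_prod_roots_of_monic A.charpoly_monic, Fintype.card_fin]
  have h2 : (A.charpoly.roots.map (fun r => (X - C a).eval r)) =
      (A.charpoly.roots.map (fun r => (-1) * (a - r))) := by
    apply Multiset.map_congr rfl
    intro r _
    simp
  rw [h2, Multiset.prod_map_mul, Multiset.map_const', Multiset.prod_replicate, card_roots_cp]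

theorem det_multi {n : ℕ} (A : Matrix (Fin n) (Fin n) ℂ) (s : Multiset ℂ) :
    (aeval A (s.map (fun a => X - C a)).prod).det =
      (A.charpoly.roots.map (fun r => (s.map (fun a => X - C a)).prod.eval r)).prod := by
  induction s using Multiset.induction_on with
  | empty => simp
  | cons a s ih =>
    rw [Multiset.map_cons, Multiset.prod_cons, map_mul, Matrix.det_mul, det_lin, ih,
      ← Multiset.prod_map_mul]
    simp only [eval_mul]

theorem det_aeval {n : ℕ} (A : Matrix (Fin n) (Fin n) ℂ) (p : ℂ[X]) :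
    (aeval A p).det = (A.charpoly.roots.map (fun r => p.eval r)).prod := by
  obtain ⟨s, hs⟩ := splits_iff_exists_multiset.1 (IsAlgClosed.splits p)
  rw [hs, map_mul, Matrix.det_mul, det_multi, aeval_C]
  have h1 : (algebraMap ℂ (Matrix (Fin n) (Fin n) ℂ) p.leadingCoeff).det =
      (A.charpoly.roots.map (fun _ => p.leadingCoeff)).prod := by
    rw [Multiset.map_const', Multiset.prod_replicate, card_roots_cp,
      Algebra.algebraMap_eq_smul_one, Matrix.det_smul, Matrix.det_one, Fintype.card_fin, mul_one]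
  rw [h1, ← Multiset.prod_map_mul]
  simp only [eval_mul, eval_C]

theorem charpoly_pow {n : ℕ} (A : Matrix (Fin n) (Fin n) ℂ) (m : ℕ) :
    (A ^ m).charpoly = ((A.charpoly.roots.map (fun r => r ^ m)).map (fun a => X - C a)).prod := by
  apply Polynomial.funext
  intro t
  rw [Matrix.eval_charpoly]
  have h1 : Matrix.scalar (Fin n) t - A ^ m = aeval A (C t - X ^ m) := by
    rw [map_sub, map_pow, aeval_X, aeval_C]
    rfl
  rw [h1, det_aeval, eval_multiset_prod, Multiset.map_map, Multiset.map_map]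
  congr 1
  apply Multiset.map_congr rfl
  intro r _
  simp

theorem trace_pow_roots {n : ℕ} (A : Matrix (Fin n) (Fin n) ℂ) (m : ℕ) :
    (A ^ m).trace = (A.charpoly.roots.map (fun r => r ^ m)).sum := by
  rw [Matrix.trace_eq_sum_roots_charpoly, charpoly_pow, roots_multiset_prod_X_sub_C]

/-- the eigenvalues, padded with zeros -/
theorem exists_padded {D0 n : ℕ} (hn : n ≤ D0) (A : Matrix (Fin n) (Fin n) ℂ) :
    ∃ l : Fin D0 → ℂ, ∀ m ≥ 1, (A ^ m).trace = ∑ i, l i ^ m := by
  obtain ⟨L, hL⟩ := Quot.exists_rep (A.charpoly.roots + Multiset.replicate (D0 - n) (0 : ℂ))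
  have hlen : L.length = D0 := by
    have h1 := congrArg Multiset.card hL
    rw [Multiset.card_add, card_roots_cp, Multiset.card_replicate] at h1
    have h2 : Multiset.card (Quot.mk _ L : Multiset ℂ) = L.length := rfl
    omega
  subst hlen
  refine ⟨L.get, fun m hm => ?_⟩
  rw [trace_pow_roots]
  have h3 : (∑ i, L.get i ^ m) = (Multiset.map (fun r => r ^ m) (L : Multiset ℂ)).sum := by
    have h4 : (L : Multiset ℂ) = Multiset.map L.get Finset.univ.val := by
      rw [Fin.univ_val_map, List.ofFn_get]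
    rw [h4, Multiset.map_map]
    rfl
  rw [h3]
  have h5 : (L : Multiset ℂ) = A.charpoly.roots + Multiset.replicate (L.length - n) (0 : ℂ) := hL
  rw [h5, Multiset.map_add, Multiset.sum_add, Multiset.map_replicate, Multiset.sum_replicate,
    zero_pow (by omega), smul_zero, add_zero]

/-- power sums tend to 0 implies elementary symmetric functions tend to 0 -/
theorem esymm_tendsto {n : ℕ} (s : ℕ → Fin n → ℂ)
    (hs : ∀ j ≥ 1, Tendsto (fun k => ∑ i, s k i ^ j) atTop (𝓝 0)) (j : ℕ) (hj : 1 ≤ j) :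
    Tendsto (fun k => MvPolynomial.aeval (s k) (MvPolynomial.esymm (Fin n) ℂ j)) atTop (𝓝 0) := by
  induction j using Nat.strong_induction_on with
  | _ j ih =>
    have h1 : ∀ k, MvPolynomial.aeval (s k) (MvPolynomial.esymm (Fin n) ℂ j) =
        (j : ℂ)⁻¹ * ((-1) ^ (j + 1) * ∑ a ∈ (Finset.HasAntidiagonal.antidiagonal j).filter (fun a => a.1 < j),
          (-1) ^ a.1 * MvPolynomial.aeval (s k) (MvPolynomial.esymm (Fin n) ℂ a.1) *
            ∑ i, s k i ^ a.2) := by
      intro k
      have h2 := congrArg (MvPolynomial.aeval (s k)) (MvPolynomial.mul_esymm_eq_sum (Fin n) ℂ j)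
      have hj0 : (j : ℂ) ≠ 0 := by
        have : j ≠ 0 := by omega
        exact_mod_cast this
      rw [eq_inv_mul_iff_mul_eq₀ hj0]
      simp only [map_mul, map_natCast, map_pow, map_neg, map_one, map_sum] at h2
      rw [h2]
      congr 1
      apply Finset.sum_congr rfl
      intro a _
      congr 1
      simp [MvPolynomial.psum]
    have h3 : Tendsto (fun k => (j : ℂ)⁻¹ * ((-1) ^ (j + 1) *
        ∑ a ∈ (Finset.HasAntidiagonal.antidiagonal j).filter (fun a => a.1 < j),
          (-1) ^ a.1 * MvPolynomial.aeval (s k) (MvPolynomial.esymm (Fin n) ℂ a.1) *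
            ∑ i, s k i ^ a.2)) atTop (𝓝 ((j : ℂ)⁻¹ * ((-1) ^ (j + 1) *
        ∑ a ∈ (Finset.HasAntidiagonal.antidiagonal j).filter (fun a => a.1 < j), (0 : ℂ)))) := by
      apply Tendsto.const_mul
      apply Tendsto.const_mul
      apply tendsto_finsetSum
      intro a ha
      obtain ⟨ha1, ha2⟩ := Finset.mem_filter.1 ha
      rw [Finset.HasAntidiagonal.mem_antidiagonal] at ha1
      have hp := hs a.2 (by omega)
      rcases Nat.eq_zero_or_pos a.1 with h0 | h0
      · rw [h0]
        have h4 : (fun k => (-1 : ℂ) ^ 0 * MvPolynomial.aeval (s k)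
            (MvPolynomial.esymm (Fin n) ℂ 0) * ∑ i, s k i ^ a.2) = fun k => ∑ i, s k i ^ a.2 := by
          funext k
          simp [MvPolynomial.esymm_zero]
        rw [h4]
        exact hp
      · have h5 := ((ih a.1 ha2 h0).const_mul ((-1 : ℂ) ^ a.1)).mul hp
        simpa using h5
    simp only [Finset.sum_const_zero, mul_zero] at h3
    exact h3.congr fun k => (h1 k).symm

theorem root_eq {n : ℕ} (s : Fin n → ℂ) (i : Fin n) :
    s i ^ n = -∑ j ∈ Finset.Icc 1 n, (-1) ^ j *
      (MvPolynomial.aeval s (MvPolynomial.esymm (Fin n) ℂ j) * s i ^ (n - j)) := by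
  have h1 := Multiset.prod_X_sub_X_eq_sum_esymm (Multiset.map s Finset.univ.val)
  have h2 : eval (s i) _ = eval (s i) _ := congrArg (fun p => eval (s i) p) h1
  have h3 : eval (s i) (Multiset.map (fun t => X - C t) (Multiset.map s Finset.univ.val)).prod = 0 := by
    rw [eval_multiset_prod, Multiset.map_map, Multiset.map_map, Multiset.prod_eq_zero_iff]
    rw [Multiset.mem_map]
    exact ⟨i, Finset.mem_univ_val i, by simp⟩
  rw [h3, eval_finsetSum, Multiset.card_map, Finset.card_val, Finset.card_univ, Fintype.card_fin,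
    Finset.sum_range_succ'] at h2
  have h4 : ∑ j ∈ Finset.Icc 1 n, (-1) ^ j *
      (MvPolynomial.aeval s (MvPolynomial.esymm (Fin n) ℂ j) * s i ^ (n - j)) =
      ∑ j ∈ Finset.range n, (-1) ^ (j + 1) *
      (MvPolynomial.aeval s (MvPolynomial.esymm (Fin n) ℂ (j + 1)) * s i ^ (n - (j + 1))) := by
    rw [Finset.range_eq_Ico, Finset.sum_Ico_add' (fun j => (-1) ^ j *
      (MvPolynomial.aeval s (MvPolynomial.esymm (Fin n) ℂ j) * s i ^ (n - j))) 0 n 1]
    rfl
  rw [h4]
  simp only [eval_mul, eval_pow, eval_neg, eval_one, eval_C, eval_X, pow_zero, one_mul,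
    Nat.sub_zero, ← MvPolynomial.aeval_esymm_eq_multiset_esymm (Fin n) ℂ] at h2
  rw [MvPolynomial.esymm_zero, map_one, one_mul] at h2
  linear_combination -h2

theorem tendsto_of_psum {n : ℕ} (s : ℕ → Fin n → ℂ)
    (hs : ∀ j ≥ 1, Tendsto (fun k => ∑ i, s k i ^ j) atTop (𝓝 0)) (i : Fin n) :
    Tendsto (fun k => s k i) atTop (𝓝 0) := by
  have hn : 0 < n := i.pos
  obtain ⟨E, hE⟩ : ∃ E : ℕ → ℝ, E = fun k => ∑ j ∈ Finset.Icc 1 n,
      ‖MvPolynomial.aeval (s k) (MvPolynomial.esymm (Fin n) ℂ j)‖ := ⟨_, rfl⟩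
  have hE0 : Tendsto E atTop (𝓝 0) := by
    have h1 : Tendsto E atTop (𝓝 (∑ j ∈ Finset.Icc 1 n, (0 : ℝ))) := by
      rw [hE]
      apply tendsto_finsetSum
      intro j hj
      have h2 := (esymm_tendsto s hs j (Finset.mem_Icc.1 hj).1).norm
      rwa [norm_zero] at h2
    rwa [Finset.sum_const_zero] at h1
  have hEn : ∀ k, 0 ≤ E k := by
    intro k
    rw [hE]
    exact Finset.sum_nonneg fun _ _ => norm_nonneg _
  -- the basic bound
  have hb : ∀ k, E k < 1 → ‖s k i‖ ^ n ≤ E k := by
    intro k hk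
    have h1 : ‖s k i‖ ^ n ≤ ∑ j ∈ Finset.Icc 1 n,
        ‖MvPolynomial.aeval (s k) (MvPolynomial.esymm (Fin n) ℂ j)‖ * ‖s k i‖ ^ (n - j) := by
      rw [← norm_pow, root_eq (s k) i, norm_neg]
      refine (norm_sum_le _ _).trans ?_
      apply Finset.sum_le_sum
      intro j _
      rw [norm_mul, norm_pow, norm_neg, norm_one, one_pow, one_mul, norm_mul, norm_pow]
    by_cases hle : ‖s k i‖ ≤ 1
    · refine h1.trans ?_
      rw [hE]
      apply Finset.sum_le_sum
      intro j _
      exact mul_le_of_le_one_right (norm_nonneg _) (pow_le_one₀ (norm_nonneg _) hle)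
    · exfalso
      push Not at hle
      have h2 : ∑ j ∈ Finset.Icc 1 n,
          ‖MvPolynomial.aeval (s k) (MvPolynomial.esymm (Fin n) ℂ j)‖ * ‖s k i‖ ^ (n - j) ≤
          E k * ‖s k i‖ ^ (n - 1) := by
        rw [hE, Finset.sum_mul]
        apply Finset.sum_le_sum
        intro j hj
        apply mul_le_mul_of_nonneg_left _ (norm_nonneg _)
        have hj1 := (Finset.mem_Icc.1 hj).1
        exact pow_le_pow_right₀ hle.le (by omega)
      have h3 : ‖s k i‖ ^ n = ‖s k i‖ ^ (n - 1) * ‖s k i‖ := by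
        rw [← pow_succ]
        congr 1
        omega
      have h4 : 0 < ‖s k i‖ ^ (n - 1) := by positivity
      have h5 : ‖s k i‖ ^ (n - 1) * ‖s k i‖ ≤ ‖s k i‖ ^ (n - 1) * E k := by
        rw [← h3, mul_comm _ (E k)]
        exact h1.trans h2
      have h6 := le_of_mul_le_mul_left h5 h4
      linarith
  rw [tendsto_zero_iff_norm_tendsto_zero, Metric.tendsto_atTop]
  intro ε hε
  have hδ : 0 < min 1 (ε ^ n) := lt_min one_pos (pow_pos hε n)
  obtain ⟨N, hN⟩ := (Metric.tendsto_atTop.1 hE0) _ hδ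
  refine ⟨N, fun k hk => ?_⟩
  have h7 := hN k hk
  rw [Real.dist_eq, sub_zero, abs_of_nonneg (hEn k)] at h7
  rw [Real.dist_eq, sub_zero, abs_of_nonneg (norm_nonneg _)]
  have h8 := hb k (h7.trans_le (min_le_left _ _))
  have h9 : ‖s k i‖ ^ n < ε ^ n := h8.trans_lt (h7.trans_le (min_le_right _ _))
  exact lt_of_pow_lt_pow_left₀ n hε.le h9

theorem hK11 : StK11 := by
  intro D0 m1 d R hd hR
  choose l hl using fun k => exists_padded (hd k) (R k)
  have hM : ∀ j ≥ 1, Tendsto (fun k => ∑ i, (l k i ^ (m1 + 1)) ^ j) atTop (𝓝 0) := by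
    intro j hj
    have h1 := hR ((m1 + 1) * j) (by nlinarith)
    refine h1.congr fun k => ?_
    rw [hl k _ (Nat.mul_pos (by omega) hj)]
    simp only [pow_mul]
  have hs := tendsto_of_psum (fun k i => l k i ^ (m1 + 1)) hM
  have hl0 : ∀ i, Tendsto (fun k => l k i) atTop (𝓝 0) := by
    intro i
    have h2 := hs i
    rw [tendsto_zero_iff_norm_tendsto_zero, Metric.tendsto_atTop] at h2 ⊢
    intro ε hε
    obtain ⟨N, hN⟩ := h2 (ε ^ (m1 + 1)) (pow_pos hε _)
    refine ⟨N, fun k hk => ?_⟩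
    have h3 := hN k hk
    rw [Real.dist_eq, sub_zero, abs_of_nonneg (norm_nonneg _), norm_pow] at h3
    rw [Real.dist_eq, sub_zero, abs_of_nonneg (norm_nonneg _)]
    exact lt_of_pow_lt_pow_left₀ _ hε.le h3
  have h4 : Tendsto (fun k => ∑ i, l k i) atTop (𝓝 (∑ _i : Fin D0, (0 : ℂ))) :=
    tendsto_finsetSum _ fun i _ => hl0 i
  rw [Finset.sum_const_zero] at h4
  refine h4.congr fun k => ?_
  have h5 := hl k 1 le_rfl
  rw [pow_one] at h5
  rw [h5]
  simp only [pow_one]

end Pool.Agent.Helper84.SI
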