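import Pool.Agent.Helper99.SI.StM

/-!
# Project SI, module M13: the involution on coordinates
-/

set_option autoImplicit false

namespace Pool.Agent.Helper84.SI

open Pool.Agent.Helper99.SI LaurentPolynomial

theorem evA_add (t : ℂ) (a b : AA) : evA t (a + b) = evA t a + evA t b := by
  unfold evA
  rw [AddMonoidAlgebra.coeff_add, Finsupp.sum_add_index']
  · intro j; exact zero_mul _
  · intro j x y; exact add_mul _ _ _

theorem evA_zero (t : ℂ) : evA t 0 = 0 := by
  unfold evA
  rw [AddMonoidAlgebra.coeff_zero, Finsupp.sum_zero_index]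

theorem evA_CT (t : ℂ) (c : ℂ) (j : ℤ) : evA t (C c * T j) = c * t ^ j := by
  unfold evA
  rw [← single_eq_C_mul_T, AddMonoidAlgebra.coeff_single, Finsupp.sum_single_index (zero_mul _)]

theorem evA_CT_mul (t : ℂ) (ht : t ≠ 0) (c : ℂ) (j : ℤ) (a : AA) :
    evA t (C c * T j * a) = c * t ^ j * evA t a := by
  induction a using LaurentPolynomial.induction_on' with
  | add p q hp hq => rw [mul_add, evA_add, evA_add, hp, hq, mul_add]
  | C_mul_T k d =>
    have h : (C c * T j * (C d * T k) : AA) = C (c * d) * T (j + k) := by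
      rw [map_mul, T_add]; ring
    rw [h, evA_CT, evA_CT, zpow_add₀ ht]; ring

theorem emI_inj {n M r : ℕ} : Function.Injective (emI : Id' n M r → Idx n r) :=
  Sum.map_injective.2 ⟨Sum.map_injective.2 ⟨Subtype.val_injective, Subtype.val_injective⟩,
    Function.injective_id⟩

section

variable {n : ℕ} {L : Type} [Ring L] [Algebra ℂ L] [StarRing L]
  {D : Sys n L} {X0 : Set L} {M r : ℕ}

/-- the coordinates evaluated at t -/
noncomputable def vv (B : YBas D X0 M r) (t : ℂ) (y : D.YY X0) : Idx n r →₀ ℂ :=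
  ((B.B.repr y).mapRange (evA t) (evA_zero t)).mapDomain emI

theorem vv_add (B : YBas D X0 M r) (t : ℂ) (y z : D.YY X0) :
    vv B t (y + z) = vv B t y + vv B t z := by
  unfold vv
  rw [map_add, Finsupp.mapRange_add (evA_add t), Finsupp.mapDomain_add]

theorem vv_zero (B : YBas D X0 M r) (t : ℂ) : vv B t 0 = 0 := by
  unfold vv
  rw [map_zero, Finsupp.mapRange_zero, Finsupp.mapDomain_zero]

theorem vv_smul (B : YBas D X0 M r) (t : ℂ) (ht : t ≠ 0) (c : ℂ) (j : ℤ) (y : D.YY X0) :
    vv B t ((C c * T j : AA) • y) = (c * t ^ j) • vv B t y := by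
  unfold vv
  rw [map_smul, ← Finsupp.mapDomain_smul]
  congr 1
  ext i
  rw [Finsupp.mapRange_apply, Finsupp.smul_apply, Finsupp.smul_apply, Finsupp.mapRange_apply,
    smul_eq_mul, smul_eq_mul, evA_CT_mul t ht]

theorem vv_basis (B : YBas D X0 M r) (t : ℂ) (i : Id' n M r) :
    vv B t (B.B i) = Finsupp.single (emI i) 1 := by
  unfold vv
  rw [Module.Basis.repr_self, Finsupp.mapRange_single, Finsupp.mapDomain_single]
  congr 1
  have h := evA_CT t 1 0
  rw [T_zero, mul_one, map_one, zpow_zero, mul_one] at h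
  exact h

theorem vv_eq_sum (B : YBas D X0 M r) (t : ℂ) (y : LL L) (hy : y ∈ D.YY X0) (Z : Finset ℤ)
    (hZ : ∀ j ∉ Z, B.co j y = 0) : vv B t ⟨y, hy⟩ = ∑ j ∈ Z, t ^ j • B.co j y := by
  classical
  have hco : ∀ j, B.co j y =
      ((B.B.repr ⟨y, hy⟩).mapRange (fun a : AA => a.coeff j) (by simp)).mapDomain emI := by
    intro j
    unfold YBas.co
    rw [dif_pos hy]
  ext i
  rw [Finsupp.finsetSum_apply]
  by_cases hi : i ∈ Set.range (emI : Id' n M r → Idx n r)
  · obtain ⟨i', rfl⟩ := hi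
    have hco' : ∀ j, B.co j y (emI i') = (B.B.repr ⟨y, hy⟩ i').coeff j := by
      intro j
      rw [hco, Finsupp.mapDomain_apply emI_inj, Finsupp.mapRange_apply]
    have h1 : vv B t ⟨y, hy⟩ (emI i') = evA t (B.B.repr ⟨y, hy⟩ i') := by
      unfold vv
      rw [Finsupp.mapDomain_apply emI_inj, Finsupp.mapRange_apply]
    rw [h1]
    unfold evA
    rw [Finsupp.sum_of_support_subset (s := Z)]
    · apply Finset.sum_congr rfl
      intro j _
      rw [Finsupp.smul_apply, hco', smul_eq_mul, mul_comm]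
    · intro j hj
      by_contra hjZ
      rw [Finsupp.mem_support_iff, ← hco', hZ j hjZ] at hj
      exact hj rfl
    · intro j _
      exact zero_mul _
  · have h2 : vv B t ⟨y, hy⟩ i = 0 := by
      unfold vv
      exact Finsupp.mapDomain_of_notMem_range _ _ hi
    rw [h2, eq_comm]
    apply Finset.sum_eq_zero
    intro j _
    rw [Finsupp.smul_apply, hco, Finsupp.mapDomain_of_notMem_range _ _ hi, smul_zero]

theorem YY_ind (B : YBas D X0 M r) {P : D.YY X0 → Prop} (h0 : P 0)
    (hadd : ∀ y z, P y → P z → P (y + z))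
    (hb : ∀ (c : ℂ) (j : ℤ) (i : Id' n M r), P ((C c * T j : AA) • B.B i)) (y : D.YY X0) :
    P y := by
  rw [← B.B.linearCombination_repr y]
  generalize B.B.repr y = f
  induction f using Finsupp.induction_linear with
  | zero => rw [map_zero]; exact h0
  | add f g hf hg => rw [map_add]; exact hadd _ _ hf hg
  | single i a =>
    rw [Finsupp.linearCombination_single]
    induction a using LaurentPolynomial.induction_on' with
    | add p q hp hq => rw [add_smul]; exact hadd _ _ hp hq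
    | C_mul_T j c => exact hb c j i

theorem Cl_add (m : MData n L) (t : ℝ) (z z' : Idx n m.r →₀ ℂ) :
    m.Cl t (z + z') = m.Cl t z + m.Cl t z' := by
  unfold MData.Cl
  rw [Finsupp.sum_add_index']
  · intro i; rw [star_zero, zero_smul]
  · intro i a b; rw [star_add, add_smul]

theorem Cl_zero (m : MData n L) (t : ℝ) : m.Cl t (0 : Idx n m.r →₀ ℂ) = 0 := by
  unfold MData.Cl
  rw [Finsupp.sum_zero_index]

theorem Cl_single (m : MData n L) (t : ℝ) (i : Idx n m.r) (c : ℂ) :
    m.Cl t (Finsupp.single i c) = star c • m.Cc t i := by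
  unfold MData.Cl
  rw [Finsupp.sum_single_index]
  rw [star_zero, zero_smul]

theorem Cl_smul (m : MData n L) (t : ℝ) (c : ℂ) (z : Idx n m.r →₀ ℂ) :
    m.Cl t (c • z) = star c • m.Cl t z := by
  induction z using Finsupp.induction_linear with
  | zero => rw [smul_zero, Cl_zero, smul_zero]
  | add f g hf hg => rw [smul_add, Cl_add, hf, hg, Cl_add, smul_add]
  | single i a =>
    rw [Finsupp.smul_single, Cl_single, Cl_single, smul_eq_mul, star_mul, smul_smul, mul_comm]

theorem core (m : MData n L) (D : Sys n L) [StarModule ℂ L] (t : ℝ) {ι Y : Type}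
    [AddCommGroup Y] [Module AA Y]
    (v : Y → (Idx n m.r →₀ ℂ)) (e : ι → Y) (em : ι → Idx n m.r) (CLs PHs : Y → Y)
    (hind : ∀ P : Y → Prop, P 0 → (∀ y z, P y → P z → P (y + z)) →
      (∀ (c : ℂ) (j : ℤ) (i : ι), P ((C c * T j : AA) • e i)) → ∀ y, P y)
    (hv0 : v 0 = 0) (hvadd : ∀ y z, v (y + z) = v y + v z)
    (hvsm : ∀ (c : ℂ) (j : ℤ) (y : Y), v ((C c * T j : AA) • y) = (c * (t : ℂ) ^ j) • v y)
    (hve : ∀ i, v (e i) = Finsupp.single (em i) 1)
    (hC0 : CLs 0 = 0) (hCadd : ∀ y z, CLs (y + z) = CLs y + CLs z)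
    (hCsm : ∀ (c : ℂ) (j : ℤ) (y : Y),
      CLs ((C c * T j : AA) • y) = (C (star c) * T j : AA) • CLs y)
    (hCC : ∀ y, CLs (CLs y) = y)
    (hP0 : PHs 0 = 0) (hPadd : ∀ y z, PHs (y + z) = PHs y + PHs z)
    (hPsm : ∀ (c : ℂ) (j : ℤ) (y : Y),
      PHs ((C c * T j : AA) • y) = (C c * T j : AA) • PHs y)
    (hCP : ∀ y, CLs (PHs y) = PHs (CLs y))
    (hCe : ∀ i, v (CLs (e i)) = m.Cc t (em i))
    (hPe : ∀ i, v (PHs (e i)) = m.Fc t (em i))
    (hdum : ∀ i, (¬ ∃ i', em i' = i) → m.Fc t i = 0 ∧ ∃ i2, (¬ ∃ i', em i' = i2) ∧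
      m.Cc t i = Finsupp.single i2 1 ∧ m.Cc t i2 = Finsupp.single i 1)
    (hpi : ∀ i, m.piV D t (m.Cc t i) = D.b.ev (t : ℂ) (star (m.piT D t i)))
    (z : Idx n m.r →₀ ℂ) :
    m.Cl t (m.Cl t z) = z ∧ m.Cl t (m.Fl t z) = m.Fl t (m.Cl t z) ∧
      m.piV D t (m.Cl t z) = D.b.ev (t : ℂ) (star (m.piV D t z)) := by
  have hstart : ∀ j : ℤ, star ((t : ℂ) ^ j) = (t : ℂ) ^ j := by
    intro j
    rw [star_zpow₀]
    congr 1
    exact Complex.conj_ofReal t
  have hCl1 : ∀ i, m.Cl t (Finsupp.single i 1) = m.Cc t i := by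
    intro i
    rw [Cl_single, star_one, one_smul]
  have hFl1 : ∀ i, m.Fl t (Finsupp.single i 1) = m.Fc t i := by
    intro i
    unfold MData.Fl
    rw [Finsupp.linearCombination_single, one_smul]
  have hpi1 : ∀ i, m.piV D t (Finsupp.single i 1) = m.piT D t i := by
    intro i
    unfold MData.piV
    rw [Finsupp.linearCombination_single, one_smul]
  have hsin : ∀ (i : Idx n m.r) (c : ℂ), Finsupp.single i c = c • Finsupp.single i (1 : ℂ) := by
    intro i c
    rw [Finsupp.smul_single, smul_eq_mul, mul_one]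
  have hvC : ∀ y, v (CLs y) = m.Cl t (v y) := by
    refine hind _ ?_ ?_ ?_
    · rw [hC0, hv0, Cl_zero]
    · intro y z hy hz
      rw [hCadd, hvadd, hvadd, hy, hz, Cl_add]
    · intro c j i
      rw [hCsm, hvsm, hvsm, hCe, hve, Cl_smul, hCl1, star_mul, hstart, mul_comm]
  have hvP : ∀ y, v (PHs y) = m.Fl t (v y) := by
    refine hind _ ?_ ?_ ?_
    · rw [hP0, hv0, map_zero]
    · intro y z hy hz
      rw [hPadd, hvadd, hvadd, hy, hz, map_add]
    · intro c j i
      rw [hPsm, hvsm, hvsm, hPe, hve, map_smul, hFl1]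
  have hb1 : ∀ i, m.Cl t (m.Cc t i) = Finsupp.single i 1 := by
    intro i
    by_cases hi : ∃ i', em i' = i
    · obtain ⟨i', rfl⟩ := hi
      rw [← hCe, ← hvC, hCC, hve]
    · obtain ⟨_, i2, _, h2, h3⟩ := hdum i hi
      rw [h2, hCl1, h3]
  have hb2 : ∀ i, m.Cl t (m.Fc t i) = m.Fl t (m.Cc t i) := by
    intro i
    by_cases hi : ∃ i', em i' = i
    · obtain ⟨i', rfl⟩ := hi
      rw [← hCe, ← hPe, ← hvC, ← hvP, hCP]
    · obtain ⟨h0, i2, h1, h2, _⟩ := hdum i hi
      rw [h2, hFl1, h0, Cl_zero, (hdum i2 h1).1]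
  refine ⟨?_, ?_, ?_⟩
  · induction z using Finsupp.induction_linear with
    | zero => rw [Cl_zero, Cl_zero]
    | add f g hf hg => rw [Cl_add, Cl_add, hf, hg]
    | single i c => rw [Cl_single, Cl_smul, hb1, star_star, ← hsin]
  · induction z using Finsupp.induction_linear with
    | zero => rw [Cl_zero, map_zero, Cl_zero]
    | add f g hf hg => rw [Cl_add, map_add, map_add, Cl_add, hf, hg]
    | single i c => rw [hsin, Cl_smul, map_smul, Cl_smul, hCl1, hFl1, map_smul, hb2]
  · induction z using Finsupp.induction_linear with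
    | zero => rw [Cl_zero, map_zero, star_zero, map_zero]
    | add f g hf hg => rw [Cl_add, map_add, map_add, star_add, map_add, hf, hg]
    | single i c => rw [hsin, Cl_smul, map_smul, map_smul, star_smul, map_smul, hCl1, hpi1, hpi]

end

theorem hM13 (h1 : StM0) (h2 : StM7) (h3 : StM11) : StM13 := by
  classical
  intro n L _ _ _ _ _ D X0 M M2 r B Z hMod hF hbb hCm t ht z
  have hmod := hMod
  obtain ⟨_, hX0, _, _, _, _, _⟩ := hmod
  obtain ⟨_, _, _, _, _, _, _, _, hev, hevC, _, _⟩ := h1 L D.b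
  obtain ⟨hPY, hCY, hCadd, hCsm, hCC, hCP, hCbt, hCc, hCev, _, _, _⟩ := h2 n L D X0 hX0
  obtain ⟨h11, _⟩ := h3 n L D X0 M M2 r B Z hMod hF hbb
  have htR : t ≠ 0 := ht.ne'
  have htC : (t : ℂ) ≠ 0 := by exact_mod_cast htR
  have hmemb : ∀ i, D.fam M B.b i ∈ D.YY X0 := by
    intro i
    rw [← B.hB i]
    exact (B.B i).2
  have hCL0 : D.CL 0 = 0 := by
    have h := hCadd 0 0
    rw [add_zero] at h
    exact (left_eq_add.1 h)
  have hFch : ∀ (j : ℤ) (i : Id' n M r), (B.mk' M2 Z).F j (emI i) =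
      B.co j (D.PhiL (D.fam M B.b i)) := by
    intro j i
    have hex : ∃ i' : Id' n M r, emI i' = (emI i : Idx n r) := ⟨i, rfl⟩
    refine (dif_pos hex).trans ?_
    have h := emI_inj hex.choose_spec
    exact congrArg (fun x => B.co j (D.PhiL (D.fam M B.b x))) h
  have hFdum : ∀ (j : ℤ) (i : Idx n r), (¬ ∃ i' : Id' n M r, emI i' = i) →
      (B.mk' M2 Z).F j i = 0 := by
    intro j i hi
    exact dif_neg hi
  refine core (B.mk' M2 Z) D t (vv B (t : ℂ)) B.B emI
    (fun y => ⟨D.CL y, hCY y y.2⟩) (fun y => ⟨D.PhiL y, hPY y y.2⟩)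
    (fun P h0 hadd hb y => YY_ind B h0 hadd hb y) (vv_zero B _) (vv_add B _) (vv_smul B _ htC)
    (vv_basis B _) (Subtype.ext hCL0) (fun y z => Subtype.ext (hCadd _ _))
    (fun c j y => Subtype.ext (hCsm c j _)) (fun y => Subtype.ext (hCC _))
    (Subtype.ext (map_zero D.PhiL)) (fun y z => Subtype.ext (map_add D.PhiL _ _))
    (fun c j y => Subtype.ext (map_smul D.PhiL _ _)) (fun y => Subtype.ext (hCP _))
    ?_ ?_ ?_ ?_ z
  · intro i
    rcases i with (ν | ν) | a
    · refine Eq.trans ?_ (vv_basis B (t : ℂ) (Sum.inl (Sum.inr ν)))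
      congr 1
      apply Subtype.ext
      show D.CL (B.B (Sum.inl (Sum.inl ν)) : LL L) = _
      rw [B.hB, B.hB]
      exact hCbt _
    · refine Eq.trans ?_ (vv_basis B (t : ℂ) (Sum.inl (Sum.inl ν)))
      congr 1
      apply Subtype.ext
      show D.CL (B.B (Sum.inl (Sum.inr ν)) : LL L) = _
      rw [B.hB, B.hB]
      show D.CL (C (star (D.w ν.1)) : LL L) = D.b.bt (D.w ν.1)
      rw [hCc, star_star]
    · have h : D.CL (B.B (Sum.inr a) : LL L) = D.CL (B.b a) := by
        rw [B.hB]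
        rfl
      refine (vv_eq_sum B (t : ℂ) _ _ Z ?_).trans ?_
      · intro j hj
        rw [h]
        exact hCm j hj a
      · rw [h]
        rfl
  · intro i
    have h : D.PhiL (B.B i : LL L) = D.PhiL (D.fam M B.b i) := by
      rw [B.hB]
    refine (vv_eq_sum B (t : ℂ) _ _ Z ?_).trans ?_
    · intro j hj
      rw [h, ← hFch]
      exact hF j hj _
    · rw [h]
      refine Finset.sum_congr rfl fun j _ => ?_
      exact congrArg _ (hFch j i).symm
  · intro i hi
    refine ⟨Finset.sum_eq_zero fun j _ => ?_, ?_⟩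
    · have h := hFdum j i hi
      exact (congrArg _ h).trans (smul_zero _)
    rcases i with (ν | ν) | a
    · refine ⟨Sum.inl (Sum.inr ν), ?_, rfl, rfl⟩
      rintro ⟨i', h⟩
      rcases i' with (ν' | ν') | a
      · exact absurd (Sum.inl.inj h) (by intro h; cases h)
      · apply hi
        refine ⟨Sum.inl (Sum.inl ν'), ?_⟩
        have h5 : ν'.1 = ν := Sum.inr.inj (Sum.inl.inj h)
        exact congrArg (fun x => Sum.inl (Sum.inl x)) h5
      · exact absurd h (by intro h; cases h)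
    · refine ⟨Sum.inl (Sum.inl ν), ?_, rfl, rfl⟩
      rintro ⟨i', h⟩
      rcases i' with (ν' | ν') | a
      · apply hi
        refine ⟨Sum.inl (Sum.inr ν'), ?_⟩
        have h5 : ν'.1 = ν := Sum.inl.inj (Sum.inl.inj h)
        exact congrArg (fun x => Sum.inl (Sum.inr x)) h5
      · exact absurd (Sum.inl.inj h) (by intro h; cases h)
      · exact absurd h (by intro h; cases h)
    · exact absurd ⟨Sum.inr a, rfl⟩ hi
  · intro i
    rcases i with (ν | ν) | a
    · refine (Finsupp.linearCombination_single _ _ _).trans ((one_smul ℂ _).trans ?_)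
      show (if M ≤ ν.length then star (D.w ν) else 0) =
        D.b.ev (t : ℂ) (star (if M ≤ ν.length then D.b.ev (t : ℂ) (D.w ν) else 0))
      split_ifs
      · have h5 := hCev t (D.b.bt (D.w ν)) htR
        rw [hCbt, hevC, hev] at h5
        exact h5
      · rw [star_zero, map_zero]
    · refine (Finsupp.linearCombination_single _ _ _).trans ((one_smul ℂ _).trans ?_)
      show (if M ≤ ν.length then D.b.ev (t : ℂ) (D.w ν) else 0) =
        D.b.ev (t : ℂ) (star (if M ≤ ν.length then star (D.w ν) else 0))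
      split_ifs
      · rw [star_star]
      · rw [star_zero, map_zero]
    · have hba : D.CL (B.b a) ∈ D.YY X0 := hCY _ (hmemb (Sum.inr a))
      have h5 := h11 t (D.CL (B.b a)) ht hba (fun j hj => hCm j hj a)
      refine (Eq.trans ?_ h5).trans ?_
      · rfl
      · rw [hCev t (B.b a) htR]
        congr 2
        show evl (t : ℂ) (B.b a) = ∑ j ∈ Z, (t : ℂ) ^ j • (B.b a).coeff j
        unfold evl
        rw [Finsupp.sum_of_support_subset (s := Z)]
        · intro j hj
          by_contra hjZ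
          rw [Finsupp.mem_support_iff] at hj
          exact hj (hbb j hjZ a)
        · intro j _
          exact smul_zero _

end Pool.Agent.Helper84.SI
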