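import Pool.Agent.Helper99.SI.StT

/-!
# Project SI, module T4: paths of G
-/

set_option autoImplicit false

namespace Pool.Agent.Helper84.SI

open Pool.Agent.Helper99.SI Pool.Agent.Helper92 Pool.Agent.Helper92.LV

section

variable {n : ℕ} {V E : Type} [Fintype V] [Fintype E] [DecidableEq V] [DecidableEq E]
    {G : LV.Graph V E} {L : Type} [Ring L] [Algebra ℂ L] [StarRing L]

theorem pl_deg (T : Two n G L) (a : V) (l : List E) :
    T.b.p (l.length : ℤ) (T.f.pl a l) = T.f.pl a l := by
  induction l with
  | nil => exact T.bv a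
  | cons x l ih =>
    have h := T.b.mul (l.length : ℤ) 1 (T.f.pl a l) (T.f.e x)
    rw [ih, T.be] at h
    have h2 : ((x :: l).length : ℤ) = (l.length : ℤ) + 1 := by
      rw [List.length_cons]; push_cast; ring
    rw [h2]
    exact h

theorem pl_v (T : Two n G L) (a : V) (l : List E) :
    T.f.pl a l * T.f.v (rng G a l) = T.f.pl a l := by
  cases l with
  | nil =>
    show T.f.v a * T.f.v a = T.f.v a
    rw [T.f.vv, if_pos rfl]
  | cons x l =>
    show T.f.pl a l * T.f.e x * T.f.v (G.r x) = T.f.pl a l * T.f.e x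
    rw [mul_assoc, T.f.er]

theorem pe_split (T : Two n G L) (hG : ∀ a : V, ∃ x : E, G.s x = a) (p : Pa G) :
    T.f.pe p * star (T.f.pe p) = ∑ x with G.s x = p.tgt,
      (T.f.pe p * T.f.e x) * star (T.f.pe p * T.f.e x) := by
  have h1 : T.f.pe p * T.f.v p.tgt = T.f.pe p := pl_v T p.1.1 p.1.2
  conv_lhs => rw [← h1]
  have h2 : star (T.f.pe p * T.f.v p.tgt) = star (T.f.pe p) := by rw [h1]
  rw [h2, T.f.ck2 p.tgt (hG p.tgt), Finset.mul_sum, Finset.sum_mul]
  apply Finset.sum_congr rfl
  intro x _
  rw [T.fg, star_mul, mul_assoc, mul_assoc, mul_assoc]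

end

theorem hT4 (_h1 : StA0) : StT4 := by
  classical
  intro n V E _ _ _ _ G L _ _ _ _ T hG
  have hdeg : ∀ (p : Pa G) (j : ℤ), T.b.p j (T.f.pe p) = if j = p.len then T.f.pe p else 0 := by
    intro p j
    have h1 : T.b.p (p.len : ℤ) (T.f.pe p) = T.f.pe p := pl_deg T p.1.1 p.1.2
    conv_lhs => rw [← h1]
    rw [T.b.pp]
    by_cases h : j = p.len
    · rw [if_pos h, if_pos h, h1]
    · rw [if_neg h, if_neg h]
  refine ⟨?_, hdeg, ?_⟩
  · intro k
    induction k with
    | zero =>
      refine ⟨Finset.univ.image (fun a : V => Pa.triv G a), ?_, ?_⟩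
      · intro p hp
        obtain ⟨a, _, rfl⟩ := Finset.mem_image.1 hp
        rfl
      · rw [Finset.sum_image]
        · rw [← T.f.one]
          apply Finset.sum_congr rfl
          intro a _
          show T.f.v a * star (T.f.v a) = T.f.v a
          rw [T.fv, T.f.vv, if_pos rfl]
        · intro a _ b _ hab
          exact congrArg Pa.src hab
    | succ k ih =>
      obtain ⟨Q, hQ, hsum⟩ := ih
      let F : Pa G × E → Pa G := fun q => if h : G.s q.2 = q.1.tgt then q.1.ext q.2 h else q.1
      have hF : ∀ (p : Pa G) (x : E) (h : G.s x = p.tgt), F (p, x) = p.ext x h := by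
        intro p x h
        exact dif_pos h
      refine ⟨((Q ×ˢ Finset.univ).filter fun q => G.s q.2 = q.1.tgt).image F, ?_, ?_⟩
      · intro p hp
        obtain ⟨⟨q, x⟩, hq, rfl⟩ := Finset.mem_image.1 hp
        obtain ⟨hq1, hq2⟩ := Finset.mem_filter.1 hq
        rw [hF q x hq2, Pa.ext_len, hQ q (Finset.mem_product.1 hq1).1]
      · rw [Finset.sum_image]
        · rw [Finset.sum_filter, Finset.sum_product, ← hsum]
          apply Finset.sum_congr rfl
          intro p _
          rw [pe_split T hG p, Finset.sum_filter]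
          apply Finset.sum_congr rfl
          intro x _
          by_cases h : G.s x = p.tgt
          · rw [if_pos h, if_pos h, hF p x h]
            rfl
          · rw [if_neg h, if_neg h]
        · rintro ⟨p, x⟩ hp ⟨q, y⟩ hq hpq
          have hp2 : G.s x = p.tgt := (Finset.mem_filter.1 hp).2
          have hq2 : G.s y = q.tgt := (Finset.mem_filter.1 hq).2
          rw [hF p x hp2, hF q y hq2] at hpq
          obtain ⟨h1, h2⟩ := Pa.ext_inj hpq
          rw [h1, h2]
  · intro s hs j hj
    have hs' : s ∈ Submodule.span ℂ (Set.range T.f.pe) := hs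
    induction hs' using Submodule.span_induction with
    | mem x hx =>
      obtain ⟨p, rfl⟩ := hx
      rw [hdeg, if_neg]
      have : (0 : ℤ) ≤ (p.len : ℤ) := Int.natCast_nonneg _
      omega
    | zero => exact map_zero _
    | add x y hx hy ihx ihy => rw [map_add, ihx hx, ihy hy, add_zero]
    | smul c x hx ih => rw [map_smul, ih hx, smul_zero]

end Pool.Agent.Helper84.SI
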